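import Pool.Agent.helper21.OE.SpecA

/-!
Row oe:EVA (adapted from helper17/OD/EVA.lean).
-/

set_option autoImplicit false

namespace Pool.Agent.OE

open MvPolynomial Matrix

theorem EVA_eval {d t : ℤ} {A : Type} [CommRing A] (f : Oz d t →+* A) (g : Mat d t) (x : Fin 4 → A) (P : Pol A) :
    eval x (act f g P) = eval ![f (g 0 0) * x 0 + f (g 1 0) * x 1, f (g 0 1) * x 0 + f (g 1 1) * x 1,
      f (star (g 0 0)) * x 2 + f (star (g 1 0)) * x 3, f (star (g 0 1)) * x 2 + f (star (g 1 1)) * x 3] P := by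
  have h : ((eval x).comp (act f g : Pol A →ₐ[A] Pol A).toRingHom) =
      eval ![f (g 0 0) * x 0 + f (g 1 0) * x 1, f (g 0 1) * x 0 + f (g 1 1) * x 1,
      f (star (g 0 0)) * x 2 + f (star (g 1 0)) * x 3, f (star (g 0 1)) * x 2 + f (star (g 1 1)) * x 3] := by
    refine MvPolynomial.ringHom_ext (fun a => ?_) (fun i => ?_)
    · simp [act]
    · fin_cases i <;> simp [act]
  exact RingHom.congr_fun h P

theorem EVA : EVA_stmt := by
  intro d t A _ f g k P hP h1 h2
  rw [EVA_eval, h1, h2, eval_eq', eval_eq', Finset.mul_sum]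
  refine Finset.sum_congr rfl fun e he => ?_
  have he' : coeff e P ≠ 0 := mem_support_iff.1 he
  have h3 := hP.1 he'
  have h4 := hP.2 he'
  rw [Finsupp.weight_apply, Finsupp.sum_fintype e _ (fun i => by simp), Fin.sum_univ_four] at h3 h4
  simp at h3 h4
  rw [Fin.prod_univ_four, Fin.prod_univ_four]
  by_cases h0 : e 0 = 0
  · by_cases h5 : e 2 = 0
    · have e1 : e 1 = k := by omega
      have e2 : e 3 = k := by omega
      simp [h0, h5, e1, e2]
      ring
    · simp [h5]
  · simp [h0]

end Pool.Agent.OE
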