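import Pool.Agent.helper21.OE.SpecA

/-!
Row oe:SNG (adapted from the OD row of helper82).
-/

set_option autoImplicit false

namespace Pool.Agent.OE

open MvPolynomial Matrix

theorem SNG_deg {A : Type} [CommRing A] (k : ℕ) (P : Pol A) (hP : BiHom k P) (d : Fin 4 →₀ ℕ)
    (hd : d ∈ P.support) : d 0 + d 1 = k ∧ d 2 + d 3 = k := by
  have hc : coeff d P ≠ 0 := mem_support_iff.1 hd
  have h1 := hP.1 hc
  have h2 := hP.2 hc
  rw [Finsupp.weight_apply, Finsupp.sum_fintype _ _ (by intro i; simp), Fin.sum_univ_four] at h1 h2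
  simp at h1 h2
  exact ⟨h1, h2⟩

theorem SNG_gen {A B : Type} [CommRing A] [CommRing B] [Algebra A B] (k : ℕ) (P : Pol A) (hP : BiHom k P)
    (v : Fin 4 → B) (h0 : v 0 = 0) (h2 : v 2 = 0) :
    aeval v P = algebraMap A B (eval ![0, 1, 0, 1] P) * (v 1 ^ k * v 3 ^ k) := by
  rw [aeval_def, eval₂_eq', eval_eq', map_sum, Finset.sum_mul]
  refine Finset.sum_congr rfl fun d hd => ?_
  obtain ⟨e1, e2⟩ := SNG_deg k P hP d hd
  rw [Fin.prod_univ_four, Fin.prod_univ_four, h0, h2, map_mul]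
  by_cases hd0 : d 0 = 0
  · by_cases hd2 : d 2 = 0
    · have e3 : d 1 = k := by omega
      have e4 : d 3 = k := by omega
      rw [hd0, hd2, e3, e4]
      simp
    · simp [hd2]
  · simp [hd0]

theorem SNG : SNG_stmt := by
  intro d t A _ f ℓ k P hf hP g
  have hs : star ((ℓ : ℕ) : Oz d t) = ((ℓ : ℕ) : Oz d t) := star_natCast ℓ
  have hadj : (al ℓ g).adjugate = !![((ℓ : ℕ) : Oz d t) * g 1 1, - g 0 1; - (((ℓ : ℕ) : Oz d t) * g 1 0), g 0 0] := by
    unfold al
    rw [Matrix.adjugate_fin_two]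
    simp [Matrix.mul_apply, Fin.sum_univ_two]
  rw [hadj]
  unfold act
  rw [SNG_gen k P hP _ (by simp [hf]) (by simp [hf])]
  unfold lin
  rw [← MvPolynomial.algebraMap_eq]
  refine congrArg (fun z => algebraMap A (Pol A) (eval ![0, 1, 0, 1] P) * z) ?_
  refine congrArg₂ (fun y z => y ^ k * z ^ k) ?_ ?_
  · simp
    ring
  · simp
    ring

end Pool.Agent.OE
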